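import Pool.Agent.Helper16.BZ.Stmts

open Finset Filter MeasureTheory Topology
open scoped ComplexConjugate InnerProductSpace

namespace Pool.Agent.Helper16.BZ

lemma vin_step (w : ℂ) (hw : ‖w‖ = 1) (j : ℕ) : ‖w ^ j - 1‖ ≤ j * ‖w - 1‖ := by
  induction j with
  | zero => simp
  | succ n ih =>
    have h1 : w ^ (n + 1) - 1 = w * (w ^ n - 1) + (w - 1) := by ring
    rw [h1]
    calc ‖w * (w ^ n - 1) + (w - 1)‖ ≤ ‖w * (w ^ n - 1)‖ + ‖w - 1‖ := norm_add_le _ _
      _ = ‖w ^ n - 1‖ + ‖w - 1‖ := by rw [norm_mul, hw, one_mul]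
      _ ≤ n * ‖w - 1‖ + ‖w - 1‖ := by linarith
      _ = ((n + 1 : ℕ) : ℝ) * ‖w - 1‖ := by push_cast; ring

lemma vin_low (w : ℂ) (hw : ‖w‖ = 1) (j : ℕ) (hj : (j : ℝ) * ‖w - 1‖ ≤ 1) :
    j * ‖w - 1‖ / 2 ≤ ‖w ^ j - 1‖ := by
  have h1 : w ^ j - 1 = (∑ i ∈ range j, w ^ i) * (w - 1) := (geom_sum_mul w j).symm
  have h2 : ‖(∑ i ∈ range j, w ^ i) - (j : ℂ)‖ ≤ ∑ i ∈ range j, (i : ℝ) * ‖w - 1‖ := by
    have h3 : (∑ i ∈ range j, w ^ i) - (j : ℂ) = ∑ i ∈ range j, (w ^ i - 1) := by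
      rw [Finset.sum_sub_distrib]; simp
    rw [h3]
    exact (norm_sum_le _ _).trans (Finset.sum_le_sum fun i _ => vin_step w hw i)
  have h4 : ∑ i ∈ range j, (i : ℝ) * ‖w - 1‖ ≤ j / 2 := by
    rw [← Finset.sum_mul]
    have h5 : ∑ i ∈ range j, (i : ℝ) ≤ j * j / 2 := by
      have h6 := Finset.sum_range_id_mul_two j
      have h7 : ((∑ i ∈ range j, i : ℕ) : ℝ) * 2 = ((j * (j - 1) : ℕ) : ℝ) := by exact_mod_cast h6
      have h8 : ((j * (j - 1) : ℕ) : ℝ) ≤ (j : ℝ) * j := by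
        have : j * (j - 1) ≤ j * j := Nat.mul_le_mul_left j (Nat.sub_le j 1)
        exact_mod_cast this
      push_cast at h7 h8
      linarith
    calc (∑ i ∈ range j, (i : ℝ)) * ‖w - 1‖ ≤ (j * j / 2) * ‖w - 1‖ :=
          mul_le_mul_of_nonneg_right h5 (norm_nonneg _)
      _ = (j / 2) * (j * ‖w - 1‖) := by ring
      _ ≤ (j / 2) * 1 := mul_le_mul_of_nonneg_left hj (by positivity)
      _ = j / 2 := by ring
  have h9 : (j : ℝ) / 2 ≤ ‖∑ i ∈ range j, w ^ i‖ := by
    have h10 : ‖(j : ℂ)‖ ≤ ‖∑ i ∈ range j, w ^ i‖ + ‖(∑ i ∈ range j, w ^ i) - (j : ℂ)‖ := by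
      have h11 : (j : ℂ) = (∑ i ∈ range j, w ^ i) - ((∑ i ∈ range j, w ^ i) - (j : ℂ)) := by ring
      calc ‖(j : ℂ)‖ = ‖(∑ i ∈ range j, w ^ i) - ((∑ i ∈ range j, w ^ i) - (j : ℂ))‖ := by
            rw [← h11]
        _ ≤ _ := norm_sub_le _ _
    have h12 : ‖(j : ℂ)‖ = j := Complex.norm_natCast j
    rw [h12] at h10
    linarith
  rw [h1, norm_mul]
  calc j * ‖w - 1‖ / 2 = (j / 2) * ‖w - 1‖ := by ring
    _ ≤ ‖∑ i ∈ range j, w ^ i‖ * ‖w - 1‖ := mul_le_mul_of_nonneg_right h9 (norm_nonneg _)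

lemma vin_diff (z : ℂ) (hz : ‖z‖ = 1) (a : ℝ) (m m' : ℕ) (h : m ≤ m') (h1 : ‖z ^ m - 1‖ ≤ a)
    (h2 : ‖z ^ m' - 1‖ ≤ a) : ‖z ^ (m' - m) - 1‖ ≤ 2 * a := by
  have h3 : ‖z ^ m‖ = 1 := by rw [norm_pow, hz, one_pow]
  have h4 : z ^ m * (z ^ (m' - m) - 1) = (z ^ m' - 1) - (z ^ m - 1) := by
    rw [mul_sub, ← pow_add, Nat.add_sub_cancel' h]; ring
  calc ‖z ^ (m' - m) - 1‖ = ‖z ^ m * (z ^ (m' - m) - 1)‖ := by rw [norm_mul, h3, one_mul]
    _ = ‖(z ^ m' - 1) - (z ^ m - 1)‖ := by rw [h4]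
    _ ≤ ‖z ^ m' - 1‖ + ‖z ^ m - 1‖ := norm_sub_le _ _
    _ ≤ 2 * a := by linarith

/-- the fibre bound -/
lemma vin_fiber (z : ℂ) (hz : ‖z‖ = 1) (a : ℝ) (q M : ℕ) (hq : 1 ≤ q) (hM : 1 ≤ M)
    (δ : ℝ) (hδ : δ = ‖z ^ q - 1‖) (hδ0 : 0 < δ) (hMδ : (M : ℝ) * δ ≤ 1) (B : Finset ℕ)
    (hB : ∀ m ∈ B, ‖z ^ m - 1‖ ≤ a) (c : ℕ × ℕ) :
    ({m ∈ B | (m % q, m / (q * M)) = c}).card ≤ ⌊4 * a / δ⌋₊ + 1 := by
  classical
  set F := {m ∈ B | (m % q, m / (q * M)) = c} with hF
  rcases F.eq_empty_or_nonempty with h0 | h0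
  · rw [h0]; simp
  · set m0 := F.min' h0 with hm0
    have hm0F : m0 ∈ F := F.min'_mem h0
    have key : ∀ m ∈ F, ∃ j : ℕ, m = m0 + q * j ∧ j ≤ ⌊4 * a / δ⌋₊ := by
      intro m hm
      have hle : m0 ≤ m := F.min'_le m hm
      rw [hF, Finset.mem_filter] at hm hm0F
      obtain ⟨hmB, hmc⟩ := hm
      obtain ⟨hm0B, hm0c⟩ := hm0F
      have e1 : m % q = m0 % q := by
        have := hmc.trans hm0c.symm
        exact (Prod.mk.inj this).1
      have e2 : m / (q * M) = m0 / (q * M) := by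
        have := hmc.trans hm0c.symm
        exact (Prod.mk.inj this).2
      have e3 : q ∣ m - m0 := (Nat.modEq_iff_dvd' hle).1 e1.symm
      obtain ⟨j, hj⟩ := e3
      have e4 : m = m0 + q * j := by omega
      refine ⟨j, e4, ?_⟩
      have hqM : 0 < q * M := Nat.mul_pos hq hM
      have e5 : m - m0 < q * M := by
        have h1 := Nat.div_add_mod m (q * M)
        have h2 := Nat.div_add_mod m0 (q * M)
        have h3 := Nat.mod_lt m hqM
        rw [e2] at h1
        omega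
      have e6 : j < M := by
        rw [hj] at e5
        exact Nat.lt_of_mul_lt_mul_left e5
      have e7 : ‖(z ^ q) ^ j - 1‖ ≤ 2 * a := by
        have h1 := vin_diff z hz a m0 m hle (hB m0 hm0B) (hB m hmB)
        rw [hj, pow_mul] at h1
        exact h1
      have e8 : (j : ℝ) * ‖z ^ q - 1‖ ≤ 1 := by
        rw [← hδ]
        refine le_trans ?_ hMδ
        exact mul_le_mul_of_nonneg_right (by exact_mod_cast e6.le) hδ0.le
      have e9 := vin_low (z ^ q) (by rw [norm_pow, hz, one_pow]) j e8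
      rw [← hδ] at e9
      apply Nat.le_floor
      rw [le_div_iff₀ hδ0]
      linarith
    have hinj : F.card ≤ (Finset.range (⌊4 * a / δ⌋₊ + 1)).card := by
      apply Finset.card_le_card_of_surjOn (fun j => m0 + q * j)
      intro m hm
      obtain ⟨j, hj1, hj2⟩ := key m hm
      refine ⟨j, ?_, hj1.symm⟩
      simp only [Finset.coe_range, Set.mem_Iio]
      omega
    simpa using hinj

theorem st_VIN : ST_VIN := by
  classical
  intro γ a N z hγ hγ1 hN hz ha hag ⟨B, hBN, hB, hcard⟩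
  have hN0 : (0 : ℝ) < N := by exact_mod_cast hN
  have hγ2 : 0 < γ ^ 2 := by positivity
  by_cases hcase : γ ^ 2 * N ≤ 36
  · refine ⟨1, le_refl _, ?_, ?_⟩
    · have : 0 < 2 / γ := by positivity
      push_cast; linarith
    · rw [pow_one, le_div_iff₀ (by positivity)]
      have h1 : ‖z - 1‖ ≤ 2 := by
        calc ‖z - 1‖ ≤ ‖z‖ + ‖(1 : ℂ)‖ := norm_sub_le _ _
          _ = 2 := by rw [hz, norm_one]; norm_num
      have h2 : 0 ≤ γ ^ 2 * N := by positivity
      nlinarith [norm_nonneg (z - 1)]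
  · push Not at hcase
    have hγN : 36 < γ * (γ * N) := by nlinarith
    have hγN' : 36 < γ * N := by
      have : 0 < γ * N := by positivity
      nlinarith
    -- existence of q
    set b := ⌈2 / γ⌉₊ with hb
    have hb1 : 2 / γ ≤ b := Nat.le_ceil _
    have hb2 : (b : ℝ) < 2 / γ + 1 := Nat.ceil_lt_add_one (by positivity)
    have hb0 : 0 < b := Nat.ceil_pos.2 (by positivity)
    have hb0' : (0 : ℝ) < b := by exact_mod_cast hb0
    have hpig : ∃ m ∈ B, ∃ m' ∈ B, m ≠ m' ∧ m / b = m' / b := by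
      apply Finset.exists_ne_map_eq_of_card_lt_of_maps_to (t := Finset.range (N / b + 1))
      · rw [Finset.card_range]
        have h1 : ((N / b + 1 : ℕ) : ℝ) < (B.card : ℝ) := by
          have h2 : ((N / b : ℕ) : ℝ) ≤ (N : ℝ) / b := Nat.cast_div_le
          have h3 : (N : ℝ) / b ≤ γ * N / 2 := by
            rw [div_le_iff₀ hb0']
            have h4 : 2 ≤ γ * b := by
              rw [div_le_iff₀ hγ] at hb1; linarith
            nlinarith
          push_cast
          linarith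
        exact_mod_cast h1
      · intro m hm
        have h1 := (Finset.mem_Icc.1 (hBN hm)).2
        simp only [Finset.coe_range, Set.mem_Iio]
        exact Nat.lt_succ_of_le (Nat.div_le_div_right h1)
    have hq : ∃ q : ℕ, 1 ≤ q ∧ q < b ∧ ‖z ^ q - 1‖ ≤ 2 * a := by
      obtain ⟨m, hm, m', hm', hne, heq⟩ := hpig
      have aux : ∀ m ∈ B, ∀ m' ∈ B, m < m' → m / b = m' / b →
          ∃ q : ℕ, 1 ≤ q ∧ q < b ∧ ‖z ^ q - 1‖ ≤ 2 * a := by
        intro m hm m' hm' hlt he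
        refine ⟨m' - m, by omega, ?_, vin_diff z hz a m m' hlt.le (hB m hm) (hB m' hm')⟩
        have h1 := Nat.div_add_mod m b
        have h2 := Nat.div_add_mod m' b
        have h3 := Nat.mod_lt m' hb0
        rw [he] at h1
        omega
      rcases lt_or_gt_of_ne hne with h | h
      · exact aux m hm m' hm' h heq
      · exact aux m' hm' m hm h heq.symm
    obtain ⟨q, hq1, hqb, hqa⟩ := hq
    have hqb' : (q : ℝ) ≤ 2 / γ + 1 := by
      have : (q : ℝ) < b := by exact_mod_cast hqb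
      linarith
    refine ⟨q, hq1, hqb', ?_⟩
    by_contra hcon
    push Not at hcon
    set δ := ‖z ^ q - 1‖ with hδ
    have hδ0 : 0 < δ := lt_of_le_of_lt (by positivity) hcon
    rw [div_lt_iff₀ (by positivity)] at hcon
    have ha1 : a ≤ 1 / 100 := by linarith
    have hδs : δ ≤ 1 / 50 := by linarith
    set M := ⌊1 / δ⌋₊ with hM
    have hM1 : (M : ℝ) ≤ 1 / δ := Nat.floor_le (by positivity)
    have hM2 : 1 / δ < M + 1 := Nat.lt_floor_add_one _
    have hMδ : (M : ℝ) * δ ≤ 1 := by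
      rw [le_div_iff₀ hδ0] at hM1; exact hM1
    have hM3 : 1 < (M + 1) * δ := by
      rw [div_lt_iff₀ hδ0] at hM2; exact hM2
    have hMbig : 1 / 2 ≤ (M : ℝ) * δ := by nlinarith
    have hM0 : 1 ≤ M := by
      by_contra h
      have : M = 0 := by omega
      rw [this] at hMbig
      norm_num at hMbig
    have hM0' : (0 : ℝ) < M := by exact_mod_cast hM0
    have hq0' : (0 : ℝ) < q := by exact_mod_cast hq1
    -- the counting
    have hcount : B.card ≤ (⌊4 * a / δ⌋₊ + 1) *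
        ((Finset.range q) ×ˢ (Finset.range (N / (q * M) + 1))).card := by
      apply Finset.card_le_mul_card_image_of_maps_to (f := fun m => (m % q, m / (q * M)))
      · intro m hm
        rw [Finset.mem_product]
        refine ⟨Finset.mem_range.2 (Nat.mod_lt _ hq1), Finset.mem_range.2 ?_⟩
        have h1 := (Finset.mem_Icc.1 (hBN hm)).2
        exact Nat.lt_succ_of_le (Nat.div_le_div_right h1)
      · intro c _
        exact vin_fiber z hz a q M hq1 hM0 δ hδ hδ0 hMδ B hB c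
    rw [Finset.card_product, Finset.card_range, Finset.card_range] at hcount
    have hcount' : (B.card : ℝ) ≤ (4 * a / δ + 1) * (N / M + q) := by
      have h1 : (B.card : ℝ) ≤ ((⌊4 * a / δ⌋₊ : ℝ) + 1) * ((q : ℝ) * (((N / (q * M) : ℕ) : ℝ) + 1)) := by
        exact_mod_cast hcount
      have h2 : (⌊4 * a / δ⌋₊ : ℝ) ≤ 4 * a / δ := Nat.floor_le (by positivity)
      have h3 : ((N / (q * M) : ℕ) : ℝ) ≤ (N : ℝ) / ((q * M : ℕ) : ℝ) := Nat.cast_div_le
      have h4 : (q : ℝ) * (((N / (q * M) : ℕ) : ℝ) + 1) ≤ N / M + q := by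
        have h5 : (q : ℝ) * ((N : ℝ) / ((q * M : ℕ) : ℝ)) = N / M := by
          push_cast
          field_simp
        calc (q : ℝ) * (((N / (q * M) : ℕ) : ℝ) + 1)
            ≤ (q : ℝ) * ((N : ℝ) / ((q * M : ℕ) : ℝ) + 1) := by
              apply mul_le_mul_of_nonneg_left _ hq0'.le
              linarith
          _ = N / M + q := by rw [mul_add, h5, mul_one]
      calc (B.card : ℝ) ≤ _ := h1
        _ ≤ (4 * a / δ + 1) * (N / M + q) := by
          apply mul_le_mul _ h4 (by positivity) (by positivity)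
          linarith
    have hNM : (N : ℝ) / M ≤ 2 * δ * N := by
      rw [div_le_iff₀ hM0']
      nlinarith
    have hq3 : (q : ℝ) ≤ 3 / γ := by
      have : 1 ≤ 1 / γ := by rw [le_div_iff₀ hγ]; linarith
      calc (q : ℝ) ≤ 2 / γ + 1 := hqb'
        _ ≤ 2 / γ + 1 / γ := by linarith
        _ = 3 / γ := by ring
    have hq4 : (q : ℝ) * γ ≤ 3 := by rwa [le_div_iff₀ hγ] at hq3
    have hq5 : (q : ℝ) ≤ γ * N / 12 := by
      have h1 : (q : ℝ) * γ * 12 < γ * (γ * N) := by linarith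
      have h2 : γ * ((q : ℝ) * 12) < γ * (γ * N) := by linarith
      have h3 := lt_of_mul_lt_mul_left h2 hγ.le
      linarith
    -- a / δ bound
    have hdiv : 4 * a / δ * q ≤ γ * N / 100 := by
      rw [div_mul_eq_mul_div, div_le_iff₀ hδ0]
      have h1 : a * q ≤ 3 / 100 := by
        have : a * q ≤ γ / 100 * q := mul_le_mul_of_nonneg_right hag hq0'.le
        linarith
      have h2 : 100 < γ * N * δ := by
        have h3 : δ * (γ ^ 2 * N) ≤ γ * N * δ := by
          have : γ ^ 2 ≤ γ := by nlinarith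
          nlinarith [mul_pos hδ0 hN0]
        linarith
      linarith
    have hfin : (4 * a / δ + 1) * (2 * δ * N + q) ≤ γ * N / 2 := by
      have h1 : (4 * a / δ + 1) * (2 * δ * N + q) = 8 * a * N + 4 * a / δ * q + 2 * δ * N + q := by
        field_simp
        ring
      rw [h1]
      have h2 : a * N ≤ γ / 100 * N := mul_le_mul_of_nonneg_right hag hN0.le
      have h3 : δ * N ≤ 2 * a * N := mul_le_mul_of_nonneg_right hqa hN0.le
      have h4 : 0 < γ * N := by positivity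
      linarith
    have hfin2 : (B.card : ℝ) ≤ γ * N / 2 := by
      calc (B.card : ℝ) ≤ (4 * a / δ + 1) * (N / M + q) := hcount'
        _ ≤ (4 * a / δ + 1) * (2 * δ * N + q) := by
          apply mul_le_mul_of_nonneg_left _ (by positivity)
          linarith
        _ ≤ γ * N / 2 := hfin
    have : 0 < γ * N := by positivity
    linarith

end Pool.Agent.Helper16.BZ
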